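import Mathlib

open Set Filter Topology

namespace Pool.Agent.Results.MP_df75a5_an.Counter

open Classical in
/-- Upper density of a set of positive integers. -/
noncomputable def upperDensity (E : Set ℕ) : ℝ :=
  limsup (fun N : ℕ => (((Finset.Icc 1 N).filter (· ∈ E)).card : ℝ) / N) atTop

/-- `R_f(E)`: the `n ≥ 1` such that `x` and `x + ⌊f n⌋` both lie in `E` for some `x`. -/
def R (f : ℝ → ℝ) (E : Set ℕ) : Set ℕ := {n | 1 ≤ n ∧ ∃ x ∈ E, ∃ y ∈ E, (y : ℤ) = x + ⌊f n⌋}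

/-- Thick sets contain arbitrarily long intervals. -/
def Thick (S : Set ℕ) : Prop := ∀ L : ℕ, ∃ a : ℕ, Icc a (a + L) ⊆ S

lemma dens (q : ℕ) (hq : 0 < q) (col : ℕ → Fin 4) :
    ∃ c, 0 < upperDensity {x | ∃ y, 1 ≤ y ∧ col y = c ∧ x = q * y} := by
  classical
  have key : ∀ M : ℕ, ∃ c, (1 / (4 * q) : ℝ) ≤
      (((Finset.Icc 1 (q * (M + 1))).filter (· ∈ {x | ∃ y, 1 ≤ y ∧ col y = c ∧ x = q * y})).card : ℝ) /
        (q * (M + 1) : ℕ) := by
    intro M
    obtain ⟨c, -, hc⟩ := Finset.exists_le_card_fiber_of_nsmul_le_card_of_maps_to (M := ℝ)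
      (s := Finset.Icc 1 (M + 1)) (t := Finset.univ) (f := col) (b := (M + 1) / 4)
      (fun _ _ => Finset.mem_univ _) Finset.univ_nonempty (by simp; linarith)
    refine ⟨c, ?_⟩
    have h1 : ((Finset.Icc 1 (M + 1)).filter (fun y => col y = c)).card ≤
        ((Finset.Icc 1 (q * (M + 1))).filter (· ∈ {x | ∃ y, 1 ≤ y ∧ col y = c ∧ x = q * y})).card := by
      refine Finset.card_le_card_of_injOn (fun y => q * y) (fun y hy => ?_)
        (fun a _ b _ h => Nat.eq_of_mul_eq_mul_left hq h)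
      simp only [Finset.coe_filter, Finset.mem_Icc, mem_setOf_eq] at hy ⊢
      exact ⟨⟨Nat.mul_pos hq hy.1.1, Nat.mul_le_mul_left _ hy.1.2⟩, y, hy.1.1, hy.2, rfl⟩
    have h2 : ((M + 1) / 4 : ℝ) ≤ ((Finset.Icc 1 (M + 1)).filter (fun y => col y = c)).card := by
      exact hc
    have h3 := h2.trans (Nat.cast_le.2 h1)
    have hq' : (0 : ℝ) < q := by exact_mod_cast hq
    rw [le_div_iff₀ (by positivity)]
    refine le_trans (le_of_eq ?_) h3
    push_cast
    field_simp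
  choose c hc using key
  obtain ⟨c0, h0⟩ := Finite.exists_infinite_fiber c
  refine ⟨c0, lt_of_lt_of_le (show (0 : ℝ) < 1 / (4 * q) by positivity) ?_⟩
  refine le_limsup_of_frequently_le ?_ ?_
  · rw [frequently_atTop]
    intro N
    obtain ⟨M, hM, hNM⟩ := (Set.infinite_coe_iff.1 h0).exists_gt N
    refine ⟨q * (M + 1), by nlinarith, ?_⟩
    have := hc M
    rwa [show c M = c0 from hM] at this
  · refine isBoundedUnder_of_eventually_le (a := 1) (Eventually.of_forall fun N => ?_)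
    refine div_le_one_of_le₀ ?_ (Nat.cast_nonneg _)
    exact_mod_cast (Finset.card_filter_le _ _).trans (by simp)

/-- For every real `α` there is a set `E` of positive integers of positive upper density such that
`R_{f₁}(E) ∩ R_{f₂}(E)` is not thick. -/
theorem result (α : ℝ) : ∃ E : Set ℕ, 0 ∉ E ∧ 0 < upperDensity E ∧
    ¬ Thick (R (fun t => t ^ (3 / 2 : ℝ)) E ∩ R (fun t => α * t ^ (3 / 2 : ℝ) + t) E) := by
  obtain ⟨m, hm⟩ := exists_nat_ge (1 + |α|)
  have hm0 : 0 < m := by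
    have : (0 : ℝ) < m := by linarith [abs_nonneg α]
    exact_mod_cast this
  have hc : ∀ y : ℕ, ⌊4 * Int.fract (α * y)⌋₊ < 4 := fun y => by
    rw [Nat.floor_lt (by linarith [Int.fract_nonneg (α * y)])]
    push_cast
    linarith [Int.fract_lt_one (α * y)]
  obtain ⟨c, hd⟩ := dens (4 * m) (by omega) (fun y => ⟨_, hc y⟩)
  refine ⟨_, ?_, hd, fun hT => ?_⟩
  · rintro ⟨y, hy, -, h⟩
    have : 0 < 4 * m * y := by positivity
    omega
  obtain ⟨a, ha⟩ := hT (4 * m)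
  obtain ⟨j, hj1, hj2⟩ : ∃ j, a ≤ 2 * m + 4 * m * j ∧ 2 * m + 4 * m * j ≤ a + 4 * m := by
    refine ⟨(a + 2 * m) / (4 * m), ?_, ?_⟩
    · have := Nat.lt_mul_div_succ (a + 2 * m) (show 0 < 4 * m by omega)
      rw [mul_add] at this
      omega
    · have := Nat.mul_div_le (a + 2 * m) (4 * m)
      omega
  obtain ⟨⟨-, _, ⟨y, -, hy, rfl⟩, _, ⟨y', -, hy', rfl⟩, h1⟩, -, _, ⟨z, -, -, rfl⟩, _, ⟨z', -, -, rfl⟩, h2⟩ :=
    ha ⟨hj1, hj2⟩
  set t : ℝ := ((2 * m + 4 * m * j : ℕ) : ℝ) ^ (3 / 2 : ℝ)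
  have e : ⌊4 * Int.fract (α * y)⌋₊ = ⌊4 * Int.fract (α * y')⌋₊ := congrArg Fin.val (hy.trans hy'.symm)
  have a1 := Nat.floor_le (show 0 ≤ 4 * Int.fract (α * y) by linarith [Int.fract_nonneg (α * y)])
  have a2 := Nat.lt_floor_add_one (4 * Int.fract (α * y))
  have a3 := Nat.floor_le (show 0 ≤ 4 * Int.fract (α * y') by linarith [Int.fract_nonneg (α * y')])
  have a4 := Nat.lt_floor_add_one (4 * Int.fract (α * y'))
  rw [e] at a1 a2
  have b1 : ((4 * m * y' : ℕ) : ℝ) = (4 * m * y : ℕ) + (⌊t⌋ : ℝ) := by exact_mod_cast h1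
  have b2 : ((4 * m * z' : ℕ) : ℝ) = (4 * m * z : ℕ) + (⌊α * t + (2 * m + 4 * m * j : ℕ)⌋ : ℝ) := by
    exact_mod_cast h2
  have c1 := Int.floor_add_fract t
  have c2 := Int.floor_le (α * t + (2 * m + 4 * m * j : ℕ))
  have c3 := Int.lt_floor_add_one (α * t + (2 * m + 4 * m * j : ℕ))
  have c4 : |α * Int.fract t| ≤ |α| := by
    rw [abs_mul, abs_of_nonneg (Int.fract_nonneg t)]
    exact mul_le_of_le_one_right (abs_nonneg _) (Int.fract_lt_one t).le
  have c5 := abs_le.1 c4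
  have d1 := Int.floor_add_fract (α * y)
  have d2 := Int.floor_add_fract (α * y')
  push_cast at b1 b2 c2 c3
  have hm' : (0 : ℝ) < m := by exact_mod_cast hm0
  have f1 : α * t = 4 * m * (⌊α * y'⌋ - ⌊α * y⌋) + m * (4 * Int.fract (α * y') - 4 * Int.fract (α * y)) +
      α * Int.fract t := by
    have : α * t = 4 * m * (α * y') - 4 * m * (α * y) + α * Int.fract t := by
      linear_combination (-α) * c1 - α * b1
    linear_combination this - 4 * m * d2 + 4 * m * d1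
  have g1 : m * (4 * Int.fract (α * y') - 4 * Int.fract (α * y)) < m * 1 :=
    mul_lt_mul_of_pos_left (by linarith) hm'
  have g2 : m * (-1) < m * (4 * Int.fract (α * y') - 4 * Int.fract (α * y)) :=
    mul_lt_mul_of_pos_left (by linarith) hm'
  set k : ℤ := z' - z - j - (⌊α * y'⌋ - ⌊α * y⌋) with hk
  have hk' : (k : ℝ) = z' - z - j - (⌊α * y'⌋ - ⌊α * y⌋) := by rw [hk]; push_cast; ring
  have k1 : 4 * m * (0 : ℝ) < 4 * m * k := by rw [hk']; nlinarith
  have k2 : 4 * m * (k : ℝ) < 4 * m * 1 := by rw [hk']; nlinarith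
  have k3 : (0 : ℝ) < k := lt_of_mul_lt_mul_left k1 (by positivity)
  have k4 : (k : ℝ) < 1 := lt_of_mul_lt_mul_left k2 (by positivity)
  have k5 : 0 < k := by exact_mod_cast k3
  have k6 : k < 1 := by exact_mod_cast k4
  omega

end Pool.Agent.Results.MP_df75a5_an.Counter
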